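import Pool.Agent.Helper112.Lp.Final

namespace Pool.Agent.Results.MP_5b95d4_nt.OrderOfMagnitude

/-- `L p` is the number of integers `n ≥ 0` such that `a * b = n * p + 1` for some `a`, `b` with
`1 ≤ a ≤ p - 1` and `0 < b < p`. For a prime `p` this forces `b` to be the inverse of `a` modulo
`p` in `(0, p)`, and `n = (a * b - 1) / p`. -/
noncomputable def L (p : ℕ) : ℕ :=
  Set.ncard {n : ℕ | ∃ a b : ℕ, 1 ≤ a ∧ a ≤ p - 1 ∧ 0 < b ∧ b < p ∧ a * b = n * p + 1}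

/-- The order of magnitude of `L(p)` is `p / ((log p) ^ δ * (log log p) ^ (3/2))` with
`δ = 1 - (1 + log log 2) / log 2`. -/
theorem result : ∃ c C : ℝ, 0 < c ∧ 0 < C ∧ ∃ p0 : ℕ, ∀ p : ℕ, p.Prime → p0 ≤ p →
    c * (p / ((Real.log p) ^ (1 - (1 + Real.log (Real.log 2)) / Real.log 2) *
      (Real.log (Real.log p)) ^ (3 / 2 : ℝ))) ≤ (L p : ℝ) ∧
    (L p : ℝ) ≤ C * (p / ((Real.log p) ^ (1 - (1 + Real.log (Real.log 2)) / Real.log 2) *
      (Real.log (Real.log p)) ^ (3 / 2 : ℝ))) := by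
  obtain ⟨c, C, hc, hC, p0, H⟩ := Pool.Agent.Helper112.LP.both
  refine ⟨c, C, hc, hC, p0, fun p hp hpp => ?_⟩
  rw [L, Pool.Agent.Helper112.LP.ns_eq p hp]
  exact H p hp hpp

end Pool.Agent.Results.MP_5b95d4_nt.OrderOfMagnitude
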